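import Pool.Agent.Hhelper29.CG.Assemble
import Pool.Agent.Hhelper29.CG.Exists

/-!
# Conjugate gradient versus randomized coordinate descent, spectrum `k^{-p}`

For every `p > 0` and `ε > 0` the order of growth of `T_CG`, of `T_RCD` and of the work ratio
`(T_RCD / n) / T_CG`, in probability.
-/

namespace Pool.Agent.Results.MP_28e48f_an.CGvsRCD

open MeasureTheory Pool.Agent.Hhelper29.CG
open scoped ENNReal

theorem result.{u} :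
    -- the random model exists
    (∀ n : ℕ, 0 < n → ∀ p : ℝ, ∃ (Ω : Type) (_ : MeasurableSpace Ω) (P : Measure Ω),
      Nonempty (Model n p P)) ∧
    -- `p > 1`: both stopping times are bounded in probability
    (∀ p : ℝ, 1 < p → ∀ ε : ℝ, 0 < ε → ε < 1 → ∀ η : ℝ, 0 < η → ∃ C : ℝ, 0 < C ∧
      ∀ (n : ℕ) {Ω : Type u} [MeasurableSpace Ω] (P : Measure Ω) (m : Model n p P),
        P {ω | ¬ (Btw 1 (m.Tcg ε ω) C ∧ Btw 1 (m.Trcd ε ω) C ∧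
          Btw (1 / (C * n)) (m.ratio ε ω) (C / n))} ≤ ENNReal.ofReal η) ∧
    -- `p = 1`: the exponents of growth
    (∀ ε : ℝ, 0 < ε → ε < 1 → ∀ δ : ℝ, 0 < δ → ∀ η : ℝ, 0 < η → ∃ n₀ : ℕ, ∀ n ≥ n₀,
      ∀ {Ω : Type u} [MeasurableSpace Ω] (P : Measure Ω) (m : Model n 1 P),
        P {ω | ¬ (
          Btw ((n : ℝ) ^ ((1 - ε) / 3 - δ)) (m.Tcg ε ω) ((n : ℝ) ^ ((1 - ε) / 3 + δ)) ∧
          Btw ((n : ℝ) ^ (2 * (1 - ε) / (2 - ε) - δ)) (m.Trcd ε ω)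
            ((n : ℝ) ^ (2 * (1 - ε) / (2 - ε) + δ)) ∧
          Btw ((n : ℝ) ^ (-(ε / (2 - ε)) - (1 - ε) / 3 - δ)) (m.ratio ε ω)
            ((n : ℝ) ^ (-(ε / (2 - ε)) - (1 - ε) / 3 + δ)))} ≤ ENNReal.ofReal η) ∧
    -- `0 < p < 1`, `ε < ε_c(p)`: `T_CG ≈ n^{p/(p+2)}`, `T_RCD ≈ n`
    (∀ p : ℝ, 0 < p → p < 1 → ∃ b : ℕ, ∀ ε : ℝ, 0 < ε → ε < epsc p → ∀ η : ℝ, 0 < η →
      ∃ C : ℝ, 0 < C ∧ ∃ n₀ : ℕ, ∀ n ≥ n₀,
      ∀ {Ω : Type u} [MeasurableSpace Ω] (P : Measure Ω) (m : Model n p P),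
        P {ω | ¬ (
          Btw ((n : ℝ) ^ (p / (p + 2)) / (Real.log n) ^ b) (m.Tcg ε ω)
            (C * (n : ℝ) ^ (p / (p + 2))) ∧
          Btw ((n : ℝ) / C) (m.Trcd ε ω) (C * n) ∧
          Btw ((n : ℝ) ^ (-(p / (p + 2))) / C) (m.ratio ε ω)
            (C * (Real.log n) ^ b * (n : ℝ) ^ (-(p / (p + 2)))))} ≤ ENNReal.ofReal η) ∧
    -- `0 < p < 1`, `ε_c(p) ≤ ε < 1`: `T_CG ≈ 1`, `T_RCD ≈ n`
    (∀ p : ℝ, 0 < p → p < 1 → ∀ ε : ℝ, epsc p ≤ ε → ε < 1 → ∀ η : ℝ, 0 < η →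
      ∃ C : ℝ, 0 < C ∧ ∃ n₀ : ℕ, ∀ n ≥ n₀,
      ∀ {Ω : Type u} [MeasurableSpace Ω] (P : Measure Ω) (m : Model n p P),
        P {ω | ¬ (Btw 1 (m.Tcg ε ω) C ∧ Btw ((n : ℝ) / C) (m.Trcd ε ω) (C * n) ∧
          Btw (1 / C) (m.ratio ε ω) C)} ≤ ENNReal.ofReal η) ∧
    -- the critical accuracy
    (∀ p : ℝ, 1 / 3 ≤ p → p < 1 → epsc p = 1) ∧
    (∀ p : ℝ, 0 < p → p < 1 / 3 → 0 < epsc p ∧ epsc p < 1) ∧
    -- `ε ≥ 1`: no step is needed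
    (∀ p ε : ℝ, 1 ≤ ε → ∀ (n : ℕ) {Ω : Type u} [MeasurableSpace Ω] (P : Measure Ω)
      (m : Model n p P) (ω : Ω), m.Tcg ε ω = 0 ∧ m.Trcd ε ω = 0) := by
  refine ⟨exists_model, ?_, ?_, ?_, ?_, ?_, ?_, ?_⟩
  · intro p hp ε hε hε1 η hη
    exact final_gt hp hε hε1 hη
  · intro ε hε hε1 δ hδ η hη
    exact final_one hε hε1 hδ hη
  · intro p hp hp1
    exact ⟨bexp p, fun ε hε hε1 η hη => final_lt_sub hp hp1 hε hε1 hη⟩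
  · intro p hp hp1 ε hε hε1 η hη
    exact final_lt_sup hp hp1 hε hε1 hη
  · intro p hp hp1
    exact epsc_eq_one hp hp1
  · intro p hp hp1
    exact ⟨epsc_pos hp (by linarith), epsc_lt_one hp hp1⟩
  · intro p ε hε n Ω _ P m ω
    exact ⟨m.tcg_zero hε ω, m.trcd_zero hε ω⟩

end Pool.Agent.Results.MP_28e48f_an.CGvsRCD
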